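import Mathlib

set_option autoImplicit false
open Set Filter Topology MeasureTheory

namespace Pool.Agent.Results.MP_f94ac9_gt.Paracompact

theorem pc {Z M : Type} [TopologicalSpace Z] [CompletelyRegularSpace Z] [Nonempty Z]
    [PseudoEMetricSpace M] (π : Z → M) (hπ : Continuous π) (k : Z → ℕ)
    (h : ∀ z, ∀ U ∈ 𝓝 z, ∃ ε > 0, ∀ w, k w = k z → edist (π w) (π z) < ε → w ∈ U) :
    ParacompactSpace Z := by
  classical
  refine ⟨fun α s so sc => ?_⟩
  choose a ha using iUnion_eq_univ_iff.1 sc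
  choose f f1 f2 f3 using fun z => CompletelyRegularSpace.completely_regular_isOpen z _ (so (a z)) (ha z)
  let g : Z → Z → ℝ := fun z w => 1 - f z w
  have gc : ∀ z, Continuous (g z) := fun z => continuous_const.sub (continuous_subtype_val.comp (f1 z))
  have g0 : ∀ z w, 0 ≤ g z w := fun z w => sub_nonneg.2 (f z w).2.2
  choose ε ε0 hε using fun z => h z {w | 0 < g z w}
    ((isOpen_lt continuous_const (gc z)).mem_nhds (by simp [g, f2]))
  let r : ℕ → ENNReal := fun n => ((n.unpair.2 : ENNReal))⁻¹ / 2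
  choose ρ hρ using fun n => PartitionOfUnity.exists_isSubordinate isClosed_univ
    (fun m : M => Metric.eball m (r n)) (fun m => Metric.isOpen_eball) fun m _ =>
      mem_iUnion.2 ⟨m, Metric.mem_eball_self (ENNReal.half_pos (by simp))⟩
  let P : ℕ → M → Z → Prop := fun n m z =>
    k z = n.unpair.1 ∧ (n.unpair.2 : ENNReal)⁻¹ < ε z ∧ π z ∈ Metric.eball m (r n)
  let c : ℕ → M → Z := fun n m => Classical.epsilon (P n m)
  let G : ℕ → M → Z → ℝ := fun n m w => g (c n m) w * ρ n m (π w)
  have Gc : ∀ n m, Continuous (G n m) := fun n m => (gc _).mul ((ρ n m).continuous.comp hπ)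
  have G0 : ∀ n m w, 0 ≤ G n m w := fun n m w => mul_nonneg (g0 _ _) ((ρ n).nonneg m _)
  have Gl : ∀ n, LocallyFinite fun m => Function.support (G n m) := fun n =>
    ((ρ n).locallyFinite.preimage_continuous hπ).subset fun m w hw => right_ne_zero_of_mul hw
  let H : ℕ → Z → ℝ := fun n w => ∑ᶠ m, G n m w
  have Hc : ∀ n, Continuous (H n) := fun n => continuous_finsum (Gc n) (Gl n)
  have H0 : ∀ z, ∃ n, 0 < H n z := fun z => by
    obtain ⟨j, hj⟩ := ENNReal.exists_inv_nat_lt (ε0 z).ne'
    obtain ⟨m, hm⟩ := (ρ (Nat.pair (k z) j)).exists_pos (mem_univ (π z))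
    have h1 : π z ∈ Metric.eball m (r (Nat.pair (k z) j)) := hρ _ m (subset_tsupport _ hm.ne')
    obtain ⟨p1, p2, p3⟩ : P _ m (c _ m) :=
      Classical.epsilon_spec (p := P (Nat.pair (k z) j) m) ⟨z, by simp, by simpa using hj, h1⟩
    refine ⟨Nat.pair (k z) j, finsum_pos (fun m => G0 _ m z) ⟨m, mul_pos (hε _ z (by simp [p1]) ?_) hm⟩
      ((Gl _).point_finite z)⟩
    refine lt_of_le_of_lt (edist_triangle_right _ _ m) (lt_trans ?_ p2)
    exact (ENNReal.add_lt_add h1 p3).trans_eq (ENNReal.add_halves _)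
  refine ⟨ℕ × M, fun p => Function.support (G p.1 p.2) ∩ ⋂ i ∈ Iio p.1, {w | H i w < 1 / ((p.1 : ℝ) + 1)},
    fun p => (Gc _ _).isOpen_support.inter ((finite_Iio _).isOpen_biInter fun i _ =>
      isOpen_lt (Hc i) continuous_const), iUnion_eq_univ_iff.2 fun z => ?_, fun z => ?_,
    fun p => ⟨a (c p.1 p.2), fun w hw => ?_⟩⟩
  · obtain ⟨m, hm⟩ : ∃ m, G (Nat.find (H0 z)) m z ≠ 0 := by
      by_contra! h1
      exact (Nat.find_spec (H0 z)).ne' (finsum_eq_zero_of_forall_eq_zero h1)
    exact ⟨(_, m), hm, mem_iInter₂.2 fun i hi =>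
      (not_lt.1 (Nat.find_min (H0 z) hi)).trans_lt Nat.one_div_pos_of_nat⟩
  · obtain ⟨n, hn⟩ := H0 z
    obtain ⟨N, hN⟩ := exists_nat_one_div_lt hn
    choose O O1 O2 using fun i => Gl i z
    refine ⟨{w | 1 / ((N : ℝ) + 1) < H n w} ∩ ⋂ i ∈ Iic (max n N), O i,
      inter_mem ((isOpen_lt continuous_const (Hc n)).mem_nhds hN)
        ((biInter_mem (finite_Iic _)).2 fun i _ => O1 i), ?_⟩
    refine ((finite_Iic (max n N)).biUnion fun i _ => (O2 i).image (Prod.mk i)).subset ?_
    rintro ⟨i, m⟩ ⟨w, ⟨w1, w2⟩, w3, w4⟩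
    have hi : i ≤ max n N := by
      by_contra! h1
      have h2 : H n w < 1 / ((i : ℝ) + 1) := mem_iInter₂.1 w2 n ((le_max_left _ _).trans_lt h1)
      have h3 := Nat.one_div_le_one_div (α := ℝ) ((le_max_right n N).trans h1.le)
      exact absurd (h2.trans_le h3) (not_lt.2 (le_of_lt w3))
    exact mem_biUnion hi ⟨m, ⟨w, w1, mem_iInter₂.1 w4 i hi⟩, rfl⟩
  · by_contra h1
    exact left_ne_zero_of_mul hw.1 (by simp [g, f3 _ h1])

section
variable {X L : Type} [MetricSpace X] [AddCommGroup L] [Module ℝ L] (b : Module.Basis X ℝ L)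

noncomputable def S (p : X) (t : ℝ) : L →ₗ[ℝ] ℝ := b.constr ℝ fun x => if dist x p < t then 1 else 0
noncomputable def N (z : L) : ENNReal := ⨆ p, volume {t ∈ Ioc (0 : ℝ) 1 | S b p t z ≠ 0}

lemma N_add (z w : L) : N b (z + w) ≤ N b z + N b w := iSup_le fun p => by
  refine le_trans (measure_mono ?_) ((measure_union_le {t ∈ Ioc (0 : ℝ) 1 | S b p t z ≠ 0}
    {t ∈ Ioc (0 : ℝ) 1 | S b p t w ≠ 0}).trans (add_le_add
    (le_iSup (fun p => volume {t ∈ Ioc (0 : ℝ) 1 | S b p t z ≠ 0}) p)
    (le_iSup (fun p => volume {t ∈ Ioc (0 : ℝ) 1 | S b p t w ≠ 0}) p)))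
  rintro t ⟨h1, h2⟩
  by_contra h
  simp only [mem_union, mem_setOf_eq, h1, true_and, not_or, not_not] at h
  exact h2 (by rw [map_add, h.1, h.2, add_zero])

lemma N_smul (r : ℝ) (z : L) : N b (r • z) ≤ N b z := iSup_mono fun p => measure_mono fun t ht =>
  ⟨ht.1, fun h => ht.2 (by rw [map_smul, h, smul_zero])⟩

lemma S_eq (p : X) (t : ℝ) (z : L) (y : X) (h1 : dist y p < t)
    (h2 : ∀ x ∈ (b.repr z).support, x ≠ y → t ≤ dist x p) : S b p t z = b.repr z y := by
  rw [S, Module.Basis.constr_apply, Finsupp.sum, Finset.sum_eq_single y]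
  · simp [h1]
  · intro x hx h; simp [not_lt.2 (h2 x hx h)]
  · intro h; simp [Finsupp.notMem_support_iff.1 h]

lemma sepa (s : Finset X) {δ : ℝ} (h : 0 < δ) : ∃ η, 0 < η ∧ η ≤ δ ∧ η ≤ 1 ∧
    ∀ x ∈ s, ∀ y ∈ s, x ≠ y → 2 * η ≤ dist x y := by
  have : ∀ᶠ η in 𝓝[>] (0 : ℝ), ∀ x ∈ s, ∀ y ∈ s, x ≠ y → 2 * η ≤ dist x y :=
    (eventually_all_finset s).2 fun x _ => (eventually_all_finset s).2 fun y _ => by
      by_cases h : x = y
      · simp [h]
      · filter_upwards [Ioc_mem_nhdsGT (half_pos (dist_pos.2 h))] with η hη _ using by linarith [hη.2]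
  obtain ⟨η, h1, h2⟩ := (this.and (Ioc_mem_nhdsGT (lt_min h one_pos))).exists
  exact ⟨η, h2.1, h2.2.trans (min_le_left _ _), h2.2.trans (min_le_right _ _), h1⟩

lemma ex_t {z : L} {η : ℝ} (h1 : η ≤ 1) (h : N b z < ENNReal.ofReal η) (p : X) :
    ∃ t ∈ Ioc 0 η, S b p t z = 0 := by
  by_contra! h2
  refine h.not_ge (le_trans ?_ (le_iSup _ p))
  refine le_trans (by simp) (measure_mono (s := Ioc 0 η) fun t ht => ⟨⟨ht.1, ht.2.trans h1⟩, h2 t ht⟩)

lemma N_self (z : L) : N b (z - z) = 0 := by simp [N]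
lemma N_comm (z w : L) : N b (z - w) ≤ N b (w - z) := by simpa using N_smul b (-1) (w - z)
lemma N_tri (z w v : L) : N b (z - v) ≤ N b (z - w) + N b (w - v) := by
  simpa using N_add b (z - w) (w - v)

def E (_ : Module.Basis X ℝ L) : Type := L
instance : AddCommGroup (E b) := inferInstanceAs (AddCommGroup L)
instance : Module ℝ (E b) := inferInstanceAs (Module ℝ L)

noncomputable instance : EMetricSpace (E b) where
  edist z w := N b (z - w)
  edist_self z := N_self b z
  edist_comm z w := le_antisymm (N_comm b z w) (N_comm b w z)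
  edist_triangle z w v := N_tri b z w v
  eq_of_edist_eq_zero {z w} h := by
    obtain ⟨η, h0, -, h1, h2⟩ := sepa (b.repr (z - w)).support one_pos
    refine sub_eq_zero.1 (b.repr.map_eq_zero_iff.1 (Finsupp.ext fun p => ?_))
    by_contra h3
    obtain ⟨t, t1, t2⟩ := ex_t b (z := z - w) h1 (h.trans_lt (ENNReal.ofReal_pos.2 h0)) p
    rw [S_eq b p t _ p (by simpa using t1.1) fun x hx hne => by
      have := h2 x hx p (Finsupp.mem_support_iff.2 h3) hne; linarith [t1.2]] at t2
    exact h3 t2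

lemma ed (z w : E b) : edist z w = N b (z - w) := rfl

instance : ContinuousAdd (E b) := ⟨(show LipschitzWith 2 fun p : E b × E b => p.1 + p.2 from fun p q => by
  rw [ed, add_sub_add_comm, ENNReal.coe_ofNat, two_mul]
  exact (N_add b _ _).trans (add_le_add (le_max_left _ _) (le_max_right _ _))).continuous⟩

instance : ContinuousConstSMul ℝ (E b) := ⟨fun r => (show LipschitzWith 1 fun z : E b => r • z from
  fun z w => by rw [ed, ← smul_sub, ENNReal.coe_one, one_mul]; exact N_smul b r _).continuous⟩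

lemma lip : @LipschitzWith X (E b) _ _ 1 (fun x => b x) := fun x y => by
  rw [ENNReal.coe_one, one_mul, edist_dist]
  refine iSup_le fun p => le_trans (measure_mono (t := uIcc (dist x p) (dist y p)) ?_) ?_
  · rintro t ⟨-, h⟩
    have e : S b p t (b x - b y) = (if dist x p < t then 1 else 0) - if dist y p < t then 1 else 0 := by
      simp [S]
    have h : S b p t (b x - b y) ≠ 0 := h
    rw [e] at h
    rw [mem_uIcc]
    by_cases h1 : dist x p < t <;> by_cases h2 : dist y p < t <;> simp_all [le_of_lt]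
  · rw [Real.volume_interval, dist_comm x y]
    exact ENNReal.ofReal_le_ofReal (abs_dist_sub_le y x p)

lemma loc [TopologicalSpace L] [ContinuousAdd L] [ContinuousConstSMul ℝ L] (hb : Continuous b) (z : L)
    (U : Set L) (hU : U ∈ 𝓝 z) : ∃ ε > 0, ∀ w, (b.repr w).support.card = (b.repr z).support.card →
      N b (w - z) < ε → w ∈ U := by
  classical
  set s := (b.repr z).support
  let G : (s → X) → L := fun y => ∑ x : s, b.repr z x • b (y x)
  have Gc : Continuous G := continuous_finset_sum _ fun x _ => (hb.comp (continuous_apply x)).const_smul _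
  have Gz : G Subtype.val = z := by
    simp only [G]
    rw [Finset.sum_coe_sort s fun x => b.repr z x • b x]
    exact b.linearCombination_repr z
  obtain ⟨δ, δ0, hδ⟩ := Metric.mem_nhds_iff.1 (Gc.continuousAt (x := Subtype.val) (Gz.symm ▸ hU))
  obtain ⟨η, h0, h1, h2, h3⟩ := sepa s δ0
  refine ⟨_, ENNReal.ofReal_pos.2 h0, fun w hc hw => ?_⟩
  choose t t1 t2 using ex_t b h2 hw
  have e : ∀ x ∈ s, S b x (t x) w = b.repr z x := fun x hx => by
    have := t2 x
    rw [map_sub, S_eq b x _ z x (by simpa using (t1 x).1) fun y hy hne => by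
      have := h3 y hy x hx hne; linarith [(t1 x).2]] at this
    linarith
  have ey : ∀ x : s, ∃ y ∈ (b.repr w).support, dist y x < t x := fun x => by
    by_contra! h
    refine Finsupp.mem_support_iff.1 x.2 ((e x x.2).symm.trans ?_)
    rw [S, Module.Basis.constr_apply, Finsupp.sum]
    exact Finset.sum_eq_zero fun y hy => by simp [not_lt.2 (h y hy)]
  choose y y1 y2 using ey
  have far : ∀ x x' : s, x' ≠ x → t x ≤ dist (y x') x := fun x x' hne => by
    have := h3 x' x'.2 x x.2 (Subtype.val_injective.ne hne)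
    have := dist_triangle_left (x' : X) x (y x')
    linarith [y2 x', (t1 x).2, (t1 x').2]
  have inj : Function.Injective y := fun x x' h => by
    by_contra hne
    exact (far x' x hne).not_gt (h ▸ y2 x')
  have im : Finset.univ.image y = (b.repr w).support := Finset.eq_of_subset_of_card_le
    (fun u hu => by obtain ⟨x, -, rfl⟩ := Finset.mem_image.1 hu; exact y1 x)
    (by rw [Finset.card_image_of_injective _ inj, hc]; simp)
  have hw : G y = w := by
    rw [← b.linearCombination_repr w, Finsupp.linearCombination_apply, Finsupp.sum, ← im,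
      Finset.sum_image inj.injOn]
    refine Finset.sum_congr rfl fun x _ => ?_
    rw [← e x x.2, S_eq b x _ w (y x) (y2 x) fun u hu hne => ?_]
    rw [← im] at hu
    obtain ⟨x', -, rfl⟩ := Finset.mem_image.1 hu
    exact far x x' fun h => hne (h ▸ rfl)
  rw [← hw]
  exact hδ ((dist_pi_lt_iff δ0).2 fun x => (y2 x).trans_le ((t1 x).2.trans h1))

end

theorem result (X L : Type) [TopologicalSpace X] [TopologicalSpace.MetrizableSpace X]
    [AddCommGroup L] [Module ℝ L] [TopologicalSpace L] [T2Space L] [ContinuousAdd L]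
    [ContinuousConstSMul ℝ L] (ι : X → L) (h1 : IsEmbedding ι) (h2 : LinearIndependent ℝ ι)
    (h3 : Submodule.span ℝ (range ι) = ⊤)
    (h4 : ∀ (E : Type) [AddCommGroup E] [Module ℝ E] [TopologicalSpace E] [T2Space E] [ContinuousAdd E]
      [ContinuousConstSMul ℝ E] (f : X → E), Continuous f →
      ∃! F : L →L[ℝ] E, ∀ x, F (ι x) = f x) :
    ParacompactSpace L := by
  letI := TopologicalSpace.metrizableSpaceMetric X
  let b := Module.Basis.mk h2 h3.ge
  have hb : ⇑b = ι := Module.Basis.coe_mk _ _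
  obtain ⟨F, hF, -⟩ := h4 (E b) _ (lip b).continuous
  have e : ∀ z, F z = z := fun z => LinearMap.congr_fun
    (b.ext (f₁ := (F : L →ₗ[ℝ] E b)) (f₂ := LinearMap.id) fun x => by rw [← hb] at hF; exact hF x) z
  haveI : IsTopologicalAddGroup L := { continuous_neg := by simpa using continuous_const_smul (T := L) (-1 : ℝ) }
  haveI : CompletelyRegularSpace L := by
    letI := IsTopologicalAddGroup.rightUniformSpace L
    infer_instance
  refine pc F F.continuous (fun z => (b.repr z).support.card) fun z U hU => ?_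
  simp only [e]
  exact loc b (hb ▸ h1.continuous) z U hU

end Pool.Agent.Results.MP_f94ac9_gt.Paracompact
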